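import Pool.Agent.H44.DG.Targets

/-! DEC: reading off labels. -/

set_option autoImplicit false

namespace Pool.Agent.H33.DG.DEC

open Pool.Agent.H44.DG

lemma rot {V : Type} (f : ℕ → V) (r : List ℕ) (w : List V) (h : (↑w : Cycle V) = ↑(r.map f)) :
    ∃ t d : List ℕ, r = t ++ d ∧ (d ++ t).map f = w := by
  obtain ⟨n, hn⟩ := (Cycle.coe_eq_coe.1 h).symm
  rw [← List.map_rotate, List.rotate_eq_drop_append_take_mod] at hn
  exact ⟨_, _, (List.take_append_drop (n % r.length) r).symm, hn⟩

theorem pf_DEC : T_DEC := by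
  intro V f r
  constructor
  · intro u v l m h
    obtain ⟨t, d, hr, hw⟩ := rot f r _ h
    rw [List.map_eq_cons_iff] at hw
    obtain ⟨u', s, hs, hu', hs'⟩ := hw
    rw [List.map_eq_append_iff] at hs'
    obtain ⟨l', s', hs1, hl', hs2⟩ := hs'
    rw [List.map_eq_cons_iff] at hs2
    obtain ⟨v', m', hm1, hv', hm'⟩ := hs2
    subst hm1
    subst hs1
    have hs3 : d ++ t = (u' :: l') ++ (v' :: m') := by rw [hs]; simp
    rcases List.append_eq_append_iff.1 hs3 with ⟨a, h1, h2⟩ | ⟨b, h1, h2⟩
    · cases d with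
      | nil =>
        refine ⟨[], l', m', u', v', ?_, Or.inl ⟨hu'.symm, hv'.symm, hl'.symm, ?_⟩⟩
        · rw [hr, h2]
          simp only [List.nil_append] at h1
          rw [← h1]
          simp
        · simp [hm']
      | cons x d' =>
        simp only [List.cons_append, List.cons.injEq] at h1
        obtain ⟨hx, hl2⟩ := h1
        subst hx
        refine ⟨a, m', d', v', u', ?_, Or.inr ⟨hv'.symm, hu'.symm, hm'.symm, ?_⟩⟩
        · rw [hr, h2]; simp
        · rw [← hl2, hl']
    · cases b with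
      | nil =>
        simp only [List.append_nil, List.nil_append] at h1 h2
        refine ⟨[], m', l', v', u', ?_, Or.inr ⟨hv'.symm, hu'.symm, hm'.symm, ?_⟩⟩
        · rw [hr, h1, ← h2]; simp
        · simp [hl']
      | cons x b' =>
        simp only [List.cons_append, List.cons.injEq] at h2
        obtain ⟨hx, hl2⟩ := h2
        subst hx
        refine ⟨t, l', b', u', v', ?_, Or.inl ⟨hu'.symm, hv'.symm, hl'.symm, ?_⟩⟩
        · rw [hr, h1]; simp
        · rw [← hl2, hm']
  · intro u l h
    obtain ⟨t, d, hr, hw⟩ := rot f r _ h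
    rw [List.map_eq_cons_iff] at hw
    obtain ⟨u', l', hs, hu', hl'⟩ := hw
    refine ⟨u', l', ?_, hu'.symm, hl'.symm⟩
    rw [hr, ← hs]
    exact List.isRotated_append

end Pool.Agent.H33.DG.DEC
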