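import Pool.Agent.H44.DG.Targets

/-! INV: inversion of a move. -/

set_option autoImplicit false

namespace Pool.Agent.H33.DG.INV

open Pool.Agent.H44.DG

lemma joinWalk_comm {V : Type} (u v : V) (l m : List V) :
    (↑(joinWalk u l v m) : Cycle V) = ↑(joinWalk v m u l) := by
  unfold joinWalk
  by_cases hl : l = [] <;> by_cases hm : m = []
  · subst hl; subst hm
    simpa using coe_rot [u] [v]
  · subst hl
    have := coe_rot (u :: v :: m) [v]
    simpa [hm] using this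
  · subst hm
    have := coe_rot [u] (v :: u :: l)
    simpa [hl] using this
  · have := coe_rot (u :: v :: m) (v :: u :: l)
    simpa [hl, hm] using this

theorem pf_INV : T_INV := by
  intro V X fl u v Ψ h
  generalize hΦ : X ::ₘ fl = Φ at h
  cases h with
  | join l m R =>
    rcases Multiset.cons_eq_cons.1 hΦ with ⟨h1, h2⟩ | ⟨h1, cs, h2, h3⟩
    · exact Or.inr (Or.inl ⟨u, v, l, m, R, Or.inl ⟨rfl, rfl⟩, h1, h2, rfl⟩)
    · rcases Multiset.cons_eq_cons.1 h3 with ⟨h4, h5⟩ | ⟨h4, ds, h5, h6⟩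
      · refine Or.inr (Or.inl ⟨v, u, m, l, R, Or.inr ⟨rfl, rfl⟩, h4.symm, ?_, ?_⟩)
        · rw [h2, h5]
        · rw [joinWalk_comm]
      · refine Or.inr (Or.inr (Or.inl ⟨l, m, ds, ?_, ?_⟩))
        · rw [h2, h6]
        · rw [h5, Multiset.cons_swap]
  | split l m R₁ R₂ =>
    rcases Multiset.cons_eq_cons.1 hΦ with ⟨h1, h2⟩ | ⟨h1, cs, h2, h3⟩
    · exact Or.inl ⟨l, m, R₁, R₂, h1, h2, rfl⟩
    · refine Or.inr (Or.inr (Or.inr ⟨l, m, ?_⟩))
      rw [h2]
      exact Multiset.mem_cons_self _ _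

end Pool.Agent.H33.DG.INV
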