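import Pool.Agent.H44.DG.Targets4

/-! SF: in a final drawing every boundary walk has length at most three. -/

set_option autoImplicit false

namespace Pool.Agent.H33.DG.SF

open Pool.Agent.H44.DG

section basic

variable {V : Type}

lemma alld_cons (Φ : Region V) (G : Multiset (Region V)) : alld (Φ ::ₘ G) = rdts Φ + alld G := by
  simp [alld]

lemma rdts_cons (w : Cycle V) (R : Region V) : rdts (w ::ₘ R) = dts w + rdts R := by
  simp [rdts]

lemma dts_coe (L : List V) : dts (↑L : Cycle V) = ↑(cprs L) := rfl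

lemma mem_dts {w : Cycle V} {x y : V} : (x, y) ∈ dts w ↔ IsDart w x y := by
  induction w using Quotient.inductionOn with
  | _ L =>
    show (x, y) ∈ (↑(cprs L) : Multiset (V × V)) ↔ IsDart (↑L : Cycle V) x y
    rw [isDart_coe, Multiset.mem_coe]

lemma mem_rdts {Φ : Region V} {x y : V} : (x, y) ∈ rdts Φ ↔ ∃ w ∈ Φ, IsDart w x y := by
  unfold rdts
  simp only [Multiset.mem_bind, mem_dts]

lemma mem_alld {F : Multiset (Region V)} {x y : V} :
    (x, y) ∈ alld F ↔ ∃ Φ ∈ F, ∃ w ∈ Φ, IsDart w x y := by
  unfold alld rdts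
  simp only [Multiset.mem_bind, mem_dts]

lemma prs_eq_zip : ∀ L : List V, prs L = L.zip L.tail
  | [] => rfl
  | [_] => rfl
  | x :: y :: l => by
    rw [prs_cons_cons, prs_eq_zip (y :: l)]
    rfl

/-- the corners of a walk as a periodic function -/
def vv (L : List V) (h : L ≠ []) (i : ℕ) : V :=
  L[i % L.length]'(Nat.mod_lt _ (List.length_pos_iff.2 h))

lemma vv_mod (L : List V) (h : L ≠ []) (i : ℕ) : vv L h (i % L.length) = vv L h i := by
  unfold vv
  simp only [Nat.mod_mod]

lemma vv_lt (L : List V) (h : L ≠ []) {i : ℕ} (hi : i < L.length) : vv L h i = L[i] := by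
  unfold vv
  simp only [Nat.mod_eq_of_lt hi]

lemma cprs_eq (L : List V) (h : L ≠ []) (h2 : 2 ≤ L.length) :
    cprs L = (List.range L.length).map (fun i => (vv L h i, vv L h (i + 1))) := by
  rcases L with _ | ⟨x, _ | ⟨y, l⟩⟩
  · exact absurd rfl h
  · simp at h2
  · rw [cprs_cons_cons, prs_eq_zip]
    apply List.ext_getElem
    · simp
    · intro i hi1 hi2
      have hi : i < (x :: y :: l).length := by simpa using hi2
      have hi' : i < l.length + 2 := by simp at hi; omega
      rw [List.getElem_zip, List.getElem_map, List.getElem_range, vv_lt _ _ hi]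
      have e1 : (x :: y :: (l ++ [x]))[i]'(by simp; omega) = (x :: y :: l)[i] := by
        have : x :: y :: (l ++ [x]) = (x :: y :: l) ++ [x] := rfl
        simp only [this]
        exact List.getElem_append_left hi
      have e2 : ((x :: y :: (l ++ [x])).tail)[i]'(by simp; omega) = vv (x :: y :: l) h (i + 1) := by
        rcases Nat.lt_or_ge (i + 1) (x :: y :: l).length with hlt | hge
        · rw [vv_lt _ _ hlt]
          have : (x :: y :: (l ++ [x])).tail = (y :: l) ++ [x] := rfl
          simp only [this]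
          rw [List.getElem_append_left (by simp at hlt ⊢; omega)]
          rfl
        · have hi3 : i + 1 = (x :: y :: l).length := by omega
          have hi4 : i = (y :: l).length := by simp at hi3 ⊢; omega
          have e3 : vv (x :: y :: l) h (i + 1) = x := by
            unfold vv
            simp only [hi3, Nat.mod_self]
            rfl
          rw [e3]
          have : (x :: y :: (l ++ [x])).tail = (y :: l) ++ [x] := rfl
          simp only [this]
          rw [List.getElem_append_right (by omega)]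
          simp
      rw [e1, e2]

lemma dart_vv (L : List V) (h : L ≠ []) (h2 : 2 ≤ L.length) (i : ℕ) :
    (vv L h i, vv L h (i + 1)) ∈ cprs L := by
  rw [cprs_eq L h h2, List.mem_map]
  refine ⟨i % L.length, List.mem_range.2 (Nat.mod_lt _ (by omega)), ?_⟩
  rw [vv_mod]
  congr 1
  rw [← vv_mod L h (i % L.length + 1), ← vv_mod L h (i + 1)]
  congr 1
  exact Nat.mod_add_mod _ _ _

lemma inj_vv (L : List V) (h : L ≠ []) (h2 : 2 ≤ L.length) (hn : (cprs L).Nodup) {i j : ℕ}
    (hi : i < L.length) (hj : j < L.length) (e1 : vv L h i = vv L h j)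
    (e2 : vv L h (i + 1) = vv L h (j + 1)) : i = j := by
  rw [cprs_eq L h h2] at hn
  exact List.inj_on_of_nodup_map hn (List.mem_range.2 hi) (List.mem_range.2 hj)
    (Prod.ext e1 e2)

lemma corner_vv (L : List V) (h : L ≠ []) (h3 : 3 ≤ L.length) {x b y : V}
    (hc : IsCorner (↑L : Cycle V) x b y) :
    ∃ i < L.length, vv L h i = x ∧ vv L h (i + 1) = b ∧ vv L h (i + 2) = y := by
  rcases hc with ⟨l, hl⟩ | ⟨-, hl⟩
  · obtain ⟨k, hk⟩ := Cycle.coe_eq_coe.1 hl
    have hlen : L.length = (x :: b :: y :: l).length := by rw [← hk, List.length_rotate]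
    have key : ∀ j (hj : j < (x :: b :: y :: l).length),
        vv L h (k % L.length + j) = (x :: b :: y :: l)[j] := by
      intro j hj
      have h1 : (L.rotate k)[j]'(by rw [List.length_rotate, hlen]; exact hj) =
          L[(j + k) % L.length]'(Nat.mod_lt _ (by omega)) := List.getElem_rotate L k j _
      have h2 : (L.rotate k)[j]'(by rw [List.length_rotate, hlen]; exact hj) =
          (x :: b :: y :: l)[j] := by
        simp only [hk]
      rw [← h2, h1]
      unfold vv
      congr 1
      rw [Nat.mod_add_mod, Nat.add_comm]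
    refine ⟨k % L.length, Nat.mod_lt _ (by omega), ?_, ?_, ?_⟩
    · exact key 0 (by simp)
    · exact key 1 (by simp)
    · exact key 2 (by simp)
  · exfalso
    have := (Cycle.coe_eq_coe.1 hl).perm.length_eq
    simp at this
    omega

lemma exists_dup : ∀ L : List V, ¬ L.Nodup → ∃ (P : List V) (p : V) (A Q : List V),
    L = P ++ p :: (A ++ p :: Q)
  | [], h => absurd List.nodup_nil h
  | x :: l, h => by
    by_cases hx : x ∈ l
    · obtain ⟨A, Q, hl⟩ := List.append_of_mem hx
      exact ⟨[], x, A, Q, by rw [hl]; rfl⟩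
    · have h1 : ¬ l.Nodup := fun h2 => h (List.nodup_cons.2 ⟨hx, h2⟩)
      obtain ⟨P, p, A, Q, hl⟩ := exists_dup l h1
      exact ⟨x :: P, p, A, Q, by rw [hl]; rfl⟩

end basic

variable {n : ℕ}

/-- a curve inside one walk is legal unless its ends are adjacent -/
lemma split_adj {D : Drawing (Fin n)} (hEI : EInv D) (hF : Final D) {Φ : Region (Fin n)}
    {G : Multiset (Region (Fin n))} {w : Cycle (Fin n)} {R : Region (Fin n)}
    (hG : D.regions = Φ ::ₘ G) (hR : Φ = w ::ₘ R) {u v : Fin n} {l m : List (Fin n)}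
    (hw : w = ↑(u :: (l ++ v :: m))) (huv : u ≠ v) : Adj D.regions u v := by
  by_contra hadj
  refine hF ⟨insert s(u, v) D.edges,
    {(↑(u :: (l ++ [v])) : Cycle (Fin n)) ::ₘ R, (↑(v :: (m ++ [u])) : Cycle (Fin n)) ::ₘ 0} + G⟩
    ⟨u, v, huv, fun h => hadj ((hEI u v huv).1 h), rfl, Φ, _, G, hG, rfl, ?_⟩
  have h := RegionMove.split (u := u) (v := v) l m R 0
  rw [add_zero, ← hw, ← hR] at h
  exact h

/-- number, modulo 2, of the darts `(p, q)` among the first `m` darts -/
def al (v : ℕ → Fin n) (m : ℕ) (p q : Fin n) : ZMod 2 :=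
  ∑ i ∈ Finset.range m, if v i = p ∧ v (i + 1) = q then 1 else 0

lemma al_dart {v : ℕ → Fin n} {m k : ℕ} (hmk : m ≤ k)
    (hinj : ∀ i j, i < k → j < k → v i = v j → v (i + 1) = v (j + 1) → i = j) {i : ℕ}
    (hi : i < k) : al v m (v i) (v (i + 1)) = if i < m then 1 else 0 := by
  unfold al
  have h1 : ∀ j ∈ Finset.range m, (if v j = v i ∧ v (j + 1) = v (i + 1) then (1 : ZMod 2) else 0) =
      if j = i then 1 else 0 := by
    intro j hj
    have hj' := Finset.mem_range.1 hj
    by_cases h : j = i
    · subst h; simp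
    · rw [if_neg h, if_neg]
      rintro ⟨h2, h3⟩
      exact h (hinj j i (by omega) hi h2 h3)
  rw [Finset.sum_congr rfl h1, Finset.sum_ite_eq']
  simp only [Finset.mem_range]

lemma al_zero {v : ℕ → Fin n} {m : ℕ} {p q : Fin n} (h : ∀ i, ¬ (v i = p ∧ v (i + 1) = q)) :
    al v m p q = 0 := by
  unfold al
  exact Finset.sum_eq_zero fun i _ => if_neg (h i)

lemma sum_al (v : ℕ → Fin n) (m : ℕ) (p : Fin n) :
    (∑ q, al v m p q) + ∑ q, al v m q p =
      (if v 0 = p then (1 : ZMod 2) else 0) + if v m = p then 1 else 0 := by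
  have e1 : ∑ q, al v m p q = ∑ i ∈ Finset.range m, if v i = p then (1 : ZMod 2) else 0 := by
    unfold al
    rw [Finset.sum_comm]
    refine Finset.sum_congr rfl fun i _ => ?_
    by_cases h : v i = p
    · simp [h]
    · simp [h]
  have e2 : ∑ q, al v m q p = ∑ i ∈ Finset.range m, if v (i + 1) = p then (1 : ZMod 2) else 0 := by
    unfold al
    rw [Finset.sum_comm]
    refine Finset.sum_congr rfl fun i _ => ?_
    by_cases h : v (i + 1) = p
    · simp [h]
    · simp [h]
  rw [e1, e2, ← Finset.sum_add_distrib]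
  induction m with
  | zero =>
    simp only [Finset.range_zero, Finset.sum_empty]
    exact (CharTwo.add_self_eq_zero _).symm
  | succ m ih =>
    have ih' := ih (by
      unfold al
      rw [Finset.sum_comm]
      refine Finset.sum_congr rfl fun i _ => ?_
      by_cases h : v i = p
      · simp [h]
      · simp [h]) (by
      unfold al
      rw [Finset.sum_comm]
      refine Finset.sum_congr rfl fun i _ => ?_
      by_cases h : v (i + 1) = p
      · simp [h]
      · simp [h])
    rw [Finset.sum_range_succ, ih']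
    have h2 : (if v m = p then (1 : ZMod 2) else 0) + (if v m = p then (1 : ZMod 2) else 0) = 0 :=
      CharTwo.add_self_eq_zero _
    linear_combination h2

/-- **SF.** -/
theorem pf_SF (hC : T_SC) (hD : T_SD) (hE : T_SE) : T_SF := by
  intro n D hR hF Φ hΦ w hw
  by_contra hlen
  rw [not_le] at hlen
  obtain ⟨hEI, hnil, -, hnd, hloop, -, -, -, -, -⟩ := hC n D hR
  obtain ⟨G, hG⟩ := Multiset.exists_cons_of_mem hΦ
  obtain ⟨R, hRR⟩ := Multiset.exists_cons_of_mem hw
  have hnoloop : ∀ x, ¬ IsDart w x x := fun x hx => hloop x (mem_alld.2 ⟨Φ, hΦ, w, hw, hx⟩)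
  have hadj : ∀ x y, IsDart w x y → Adj D.regions x y := fun x y h => ⟨Φ, hΦ, w, hw, Or.inl h⟩
  -- a good rotation
  obtain ⟨a, b, A', c, d, B', hwL, hba, hbc, hda, hdc, hac⟩ :
      ∃ (a b : Fin n) (A' : List (Fin n)) (c d : Fin n) (B' : List (Fin n)),
        w = ↑(a :: ((b :: A') ++ c :: (d :: B'))) ∧ b ≠ a ∧ b ≠ c ∧ d ≠ a ∧ d ≠ c ∧
        (a = c ∨ Adj D.regions a c) := by
    obtain ⟨L, hL⟩ : ∃ L : List (Fin n), (↑L : Cycle (Fin n)) = w := Quotient.exists_rep w
    rw [← hL] at hlen hnoloop hRR hw hadj ⊢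
    have hlen' : 3 < L.length := by simpa using hlen
    by_cases hnd' : L.Nodup
    · obtain ⟨a, b, c, d, B', rfl⟩ : ∃ a b c d B', L = a :: b :: c :: d :: B' := by
        rcases L with _ | ⟨a, _ | ⟨b, _ | ⟨c, _ | ⟨d, B'⟩⟩⟩⟩
        · simp at hlen'
        · simp at hlen'
        · simp at hlen'
        · simp at hlen'
        · exact ⟨a, b, c, d, B', rfl⟩
      have hab : a ≠ b := by
        rintro rfl; simp at hnd'
      have hac : a ≠ c := by
        rintro rfl; simp at hnd'
      have had : a ≠ d := by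
        rintro rfl; simp at hnd'
      have hbc : b ≠ c := by
        rintro rfl; simp at hnd'
      have hcd : c ≠ d := by
        rintro rfl; simp at hnd'
      exact ⟨a, b, [], c, d, B', rfl, hab.symm, hbc, had.symm, hcd.symm, Or.inr
        (split_adj hEI hF hG hRR (l := [b]) (m := d :: B') rfl hac)⟩
    · obtain ⟨P, p, A, Q, hPQ⟩ := exists_dup L hnd'
      have e1 : (↑L : Cycle (Fin n)) = ↑(p :: (A ++ p :: (Q ++ P))) := by
        rw [hPQ, coe_rot]
        simp
      have e2 : (↑L : Cycle (Fin n)) = ↑(p :: ((Q ++ P) ++ p :: A)) := by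
        rw [e1, show p :: (A ++ p :: (Q ++ P)) = (p :: A) ++ (p :: (Q ++ P)) by simp, coe_rot]
        simp
      rcases A with _ | ⟨b, A'⟩
      · exact absurd ⟨Q ++ P, e1⟩ (hnoloop p)
      · rcases hB : Q ++ P with _ | ⟨d, B'⟩
        · rw [hB] at e2
          exact absurd ⟨b :: A', e2⟩ (hnoloop p)
        · rw [hB] at e1 e2
          refine ⟨p, b, A', p, d, B', e1, ?_, ?_, ?_, ?_, Or.inl rfl⟩
          · rintro rfl; exact hnoloop b ⟨_, e1⟩
          · rintro rfl; exact hnoloop b ⟨_, e1⟩
          · rintro rfl; exact hnoloop d ⟨_, e2⟩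
          · rintro rfl; exact hnoloop d ⟨_, e2⟩
  -- the corners
  set L : List (Fin n) := a :: ((b :: A') ++ c :: (d :: B')) with hLdef
  have hLne : L ≠ [] := by rw [hLdef]; simp
  have hLlen : L.length = A'.length + B'.length + 4 := by rw [hLdef]; simp; omega
  set v : ℕ → Fin n := vv L hLne with hv
  set m := A'.length + 2 with hm
  have hv0 : v 0 = a := by
    rw [hv, vv_lt L hLne (by omega : 0 < L.length)]
    rfl
  have hv1 : v 1 = b := by
    rw [hv, vv_lt L hLne (by omega : 1 < L.length)]
    rfl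
  have hvm : v m = c := by
    rw [hv, vv_lt L hLne (by omega : m < L.length)]
    simp [hLdef, hm]
  have hvm1 : v (m + 1) = d := by
    rw [hv, vv_lt L hLne (by omega : m + 1 < L.length)]
    have : L = (a :: b :: A') ++ c :: d :: B' := by rw [hLdef]; simp
    simp only [this]
    rw [List.getElem_append_right (by simp [hm])]
    simp [hm]
  -- nodup
  have hndL : (cprs L).Nodup := by
    rw [hG, alld_cons, hRR, rdts_cons, hwL, dts_coe] at hnd
    exact Multiset.coe_nodup.1 (Multiset.nodup_add.1 (Multiset.nodup_add.1 hnd).1).1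
  have hinj : ∀ i j, i < L.length → j < L.length → v i = v j → v (i + 1) = v (j + 1) → i = j :=
    fun i j hi hj e1 e2 => inj_vv L hLne (by omega) hndL hi hj e1 e2
  have huniq : ∀ Φ' ∈ D.regions, ∀ w' ∈ Φ', ∀ x y, IsDart w' x y → IsDart w x y → w' = w := by
    intro Φ' hΦ' w' hw' x y h1 h2
    rw [hG, alld_cons, hRR, rdts_cons] at hnd
    rw [Multiset.nodup_add, Multiset.nodup_add] at hnd
    obtain ⟨⟨-, -, hd1⟩, -, hd2⟩ := hnd
    rw [hG] at hΦ'
    rcases Multiset.mem_cons.1 hΦ' with rfl | hΦ'
    · rw [hRR] at hw'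
      rcases Multiset.mem_cons.1 hw' with h | h
      · exact h
      · exact absurd (mem_rdts.2 ⟨w', h, h1⟩)
          (Multiset.disjoint_left.1 hd1 (mem_dts.2 h2))
    · exact absurd (mem_alld.2 ⟨Φ', hΦ', w', hw', h1⟩)
        (Multiset.disjoint_left.1 hd2 (Multiset.mem_add.2 (Or.inl (mem_dts.2 h2))))
  have hdv : ∀ i, IsDart w (v i) (v (i + 1)) := by
    intro i
    rw [hwL, isDart_coe]
    exact dart_vv L hLne (by omega) i
  -- the cycle
  set e : Fin n → Fin n → ZMod 2 := fun p q =>
    if a ≠ c ∧ ((p = a ∧ q = c) ∨ (p = c ∧ q = a)) then 1 else 0 with he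
  set x : Fin n → Fin n → ZMod 2 := fun p q => e p q + (al v m p q + al v m q p) with hx
  have hesymm : ∀ p q, e p q = e q p := by
    intro p q
    simp only [he]
    congr 1
    rw [eq_iff_iff]
    constructor
    · rintro ⟨h1, h2 | h2⟩
      · exact ⟨h1, Or.inr ⟨h2.2, h2.1⟩⟩
      · exact ⟨h1, Or.inl ⟨h2.2, h2.1⟩⟩
    · rintro ⟨h1, h2 | h2⟩
      · exact ⟨h1, Or.inr ⟨h2.2, h2.1⟩⟩
      · exact ⟨h1, Or.inl ⟨h2.2, h2.1⟩⟩
  obtain ⟨s0, hs0, hs1⟩ := hE n D hR x (fun p q => by
      simp only [hx]
      rw [hesymm p q, add_comm (al v m p q)])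
    (fun p q hpq => by
      simp only [hx]
      rw [al_zero (fun i hi => hpq (by rw [← hi.1, ← hi.2]; exact hadj _ _ (hdv i))),
        al_zero (fun i hi => hpq (by rw [← hi.1, ← hi.2]; exact (hadj _ _ (hdv i)).symm))]
      simp only [he]
      rw [if_neg]
      · simp
      · rintro ⟨h1, h2 | h2⟩
        · rcases hac with h3 | h3
          · exact h1 h3
          · exact hpq (by rw [h2.1, h2.2]; exact h3)
        · rcases hac with h3 | h3
          · exact h1 h3
          · exact hpq (by rw [h2.1, h2.2]; exact h3.symm))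
    (fun p => by
      simp only [hx]
      rw [Finset.sum_add_distrib, Finset.sum_add_distrib, sum_al, hv0, hvm]
      simp only [he]
      by_cases hac' : a = c
      · subst hac'
        simp only [ne_eq, not_true_eq_false, false_and, if_false, Finset.sum_const_zero, zero_add]
        exact CharTwo.add_self_eq_zero _
      · have h1 : ∑ q, (if a ≠ c ∧ ((p = a ∧ q = c) ∨ (p = c ∧ q = a)) then (1 : ZMod 2) else 0) =
            (if a = p then 1 else 0) + if c = p then 1 else 0 := by
          by_cases h2 : a = p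
          · subst h2
            have h3 : ∀ q, (if a ≠ c ∧ ((a = a ∧ q = c) ∨ (a = c ∧ q = a)) then (1 : ZMod 2) else 0) =
                if q = c then 1 else 0 := by
              intro q
              simp [hac']
            rw [Finset.sum_congr rfl fun q _ => h3 q]
            simp [Ne.symm hac']
          · by_cases h4 : c = p
            · subst h4
              have h3 : ∀ q, (if a ≠ c ∧ ((c = a ∧ q = c) ∨ (c = c ∧ q = a)) then (1 : ZMod 2) else 0) =
                  if q = a then 1 else 0 := by
                intro q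
                simp [hac', Ne.symm hac']
              rw [Finset.sum_congr rfl fun q _ => h3 q]
              simp [hac']
            · have h3 : ∀ q, (if a ≠ c ∧ ((p = a ∧ q = c) ∨ (p = c ∧ q = a)) then (1 : ZMod 2) else 0) =
                  0 := by
                intro q
                rw [if_neg]
                rintro ⟨-, h5 | h5⟩
                · exact h2 h5.1.symm
                · exact h4 h5.1.symm
              rw [Finset.sum_congr rfl fun q _ => h3 q]
              simp [h2, h4]
        rw [h1]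
        exact CharTwo.add_self_eq_zero _)
  -- the potential
  set s : Fin n → Fin n → ZMod 2 := fun p q => s0 p q + al v m p q with hs
  have hflip : ∀ b', b' ≠ a → b' ≠ c → ∀ p, Adj D.regions p b' → s p b' = s b' p := by
    intro b' h1 h2 p hp
    have h3 := hs1 p b' hp
    have h4 : e p b' = 0 := by
      simp only [he]
      rw [if_neg]
      rintro ⟨-, h5 | h5⟩
      · exact h2 h5.2
      · exact h1 h5.2
    simp only [hx] at h3
    rw [h4, zero_add] at h3
    simp only [hs]
    have h5 : s0 p b' + al v m p b' + (s0 b' p + al v m b' p) = 0 := by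
      have h6 : (s0 p b' + s0 b' p) + (s0 p b' + s0 b' p) = 0 := CharTwo.add_self_eq_zero _
      linear_combination h6 + h3
    exact CharTwo.add_eq_zero.1 h5
  have hcor : ∀ b', b' ≠ a → b' ≠ c → ∀ Φ' ∈ D.regions, ∀ w' ∈ Φ', ∀ p q, IsCorner w' p b' q →
      s p b' = s b' q := by
    intro b' h1 h2 Φ' hΦ' w' hw' p q hpq
    have hd1 : IsDart w' p b' := by
      rcases hpq with ⟨l, rfl⟩ | ⟨rfl, rfl⟩
      · exact ⟨q :: l, rfl⟩
      · exact ⟨[], rfl⟩
    have hd2 : IsDart w' b' q := by
      rcases hpq with ⟨l, rfl⟩ | ⟨rfl, rfl⟩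
      · exact ⟨l ++ [p], coe_rot [p] (b' :: q :: l)⟩
      · exact ⟨[], coe_rot [q] [b']⟩
    have h3 : s0 p b' = s0 b' q :=
      hs0 Φ' hΦ' (p, b') (mem_rdts.2 ⟨w', hw', hd1⟩) (b', q) (mem_rdts.2 ⟨w', hw', hd2⟩)
    have h4 : al v m p b' = al v m b' q := by
      by_cases hww : w' = w
      · rw [hww, hwL] at hpq
        obtain ⟨i, hi, e1, e2, e3⟩ := corner_vv L hLne (by omega) hpq
        have e1' : v i = p := e1
        have e2' : v (i + 1) = b' := e2
        have e3' : v (i + 2) = q := e3
        have hi1 : i + 1 < L.length := by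
          by_contra hcon
          have h5 : i + 1 = L.length := by omega
          have h6 : v (i + 1) = v 0 := by
            rw [hv, ← vv_mod L hLne (i + 1), h5, Nat.mod_self]
          exact h1 (by rw [← e2', h6, hv0])
        have him : i + 1 ≠ m := by
          intro h5
          exact h2 (by rw [← e2', h5, hvm])
        rw [← e1', ← e3', ← e2']
        rw [al_dart (k := L.length) (by omega) hinj hi]
        have h6 := al_dart (k := L.length) (v := v) (m := m) (by omega) hinj hi1
        rw [show i + 2 = i + 1 + 1 from rfl, h6]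
        by_cases h7 : i < m
        · rw [if_pos h7, if_pos (by omega)]
        · rw [if_neg h7, if_neg (by omega)]
      · rw [al_zero (fun i hi => hww (huniq Φ' hΦ' w' hw' p b' hd1 (by
            rw [← hi.1, ← hi.2]; exact hdv i))),
          al_zero (fun i hi => hww (huniq Φ' hΦ' w' hw' b' q hd2 (by
            rw [← hi.1, ← hi.2]; exact hdv i)))]
    simp only [hs]
    rw [h3, h4]
  have hstar : ∀ b', b' ≠ a → b' ≠ c → ∀ p q, Adj D.regions b' p → Adj D.regions b' q →
      s b' p = s b' q := fun b' h1 h2 =>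
    hD n D hR b' s (hflip b' h1 h2) (hcor b' h1 h2)
  have hab : IsDart w a b := by
    have := hdv 0
    rwa [hv0, hv1] at this
  have hcd : IsDart w c d := by
    have := hdv m
    rwa [hvm, hvm1] at this
  have ht : s0 a b = s0 c d :=
    hs0 Φ hΦ (a, b) (mem_rdts.2 ⟨w, hw, hab⟩) (c, d) (mem_rdts.2 ⟨w, hw, hcd⟩)
  have hsab : s a b = s0 a b + 1 := by
    simp only [hs]
    have h1 := al_dart (k := L.length) (v := v) (m := m) (by omega) hinj
      (by omega : 0 < L.length)
    rw [hv0, zero_add, hv1] at h1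
    rw [h1, if_pos (by omega)]
  have hscd : s c d = s0 c d := by
    simp only [hs]
    have h1 := al_dart (k := L.length) (v := v) (m := m) (by omega) hinj
      (by omega : m < L.length)
    rw [hvm, hvm1] at h1
    rw [h1, if_neg (by omega), add_zero]
  have hAab := hadj a b hab
  have hAcd := hadj c d hcd
  have hsba : s b a = s0 a b + 1 := by rw [← hflip b hba hbc a hAab, hsab]
  have hsdc : s d c = s0 a b := by rw [← hflip d hda hdc c hAcd, hscd, ht]
  have hcontra : s0 a b + 1 ≠ s0 a b := by
    intro h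
    have : (1 : ZMod 2) = 0 := by linear_combination h
    exact one_ne_zero this
  by_cases hbd : b = d
  · subst hbd
    have h1 := hstar b hba hbc a c hAab.symm hAcd.symm
    rw [hsba, hsdc] at h1
    exact hcontra h1
  · have hw2 : w = ↑(b :: ((A' ++ [c]) ++ d :: (B' ++ [a]))) := by
      rw [hwL, hLdef, show a :: (b :: A' ++ c :: d :: B') = [a] ++ (b :: A' ++ c :: d :: B') by rfl,
        coe_rot]
      simp
    have h2 := split_adj hEI hF hG hRR hw2 hbd
    have h3 := hstar b hba hbc a d hAab.symm h2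
    have h4 := hstar d hda hdc c b hAcd.symm h2.symm
    have h5 := hflip b hba hbc d h2.symm
    rw [hsba] at h3
    rw [hsdc] at h4
    exact hcontra (by rw [h3, ← h5, ← h4])

end Pool.Agent.H33.DG.SF
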