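import Pool.Agent.H44.DG.Targets4

/-! SG: every play ends with a triangulation. -/

set_option autoImplicit false

namespace Pool.Agent.H33.DG.SG

open Pool.Agent.H44.DG

section basic

variable {V : Type}

lemma alld_cons (Φ : Region V) (G : Multiset (Region V)) : alld (Φ ::ₘ G) = rdts Φ + alld G := by
  simp [alld]

lemma rdts_sing (w : Cycle V) : rdts ({w} : Region V) = dts w := by
  simp [rdts]

lemma dts_coe (L : List V) : dts (↑L : Cycle V) = ↑(cprs L) := rfl

lemma mem_dts {w : Cycle V} {x y : V} : (x, y) ∈ dts w ↔ IsDart w x y := by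
  induction w using Quotient.inductionOn with
  | _ L =>
    show (x, y) ∈ (↑(cprs L) : Multiset (V × V)) ↔ IsDart (↑L : Cycle V) x y
    rw [isDart_coe, Multiset.mem_coe]

lemma mem_rdts {Φ : Region V} {x y : V} : (x, y) ∈ rdts Φ ↔ ∃ w ∈ Φ, IsDart w x y := by
  unfold rdts
  simp only [Multiset.mem_bind, mem_dts]

lemma mem_alld {F : Multiset (Region V)} {x y : V} :
    (x, y) ∈ alld F ↔ ∃ Φ ∈ F, ∃ w ∈ Φ, IsDart w x y := by
  unfold alld rdts
  simp only [Multiset.mem_bind, mem_dts]

end basic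

variable {n : ℕ}

/-- every region has exactly one walk -/
lemma one_walk (hB : T_SB) {D : Drawing (Fin n)} (hR : Reach n D) (hF : Final D) (hEI : EInv D)
    (hnil : ∀ Φ ∈ D.regions, ∀ w ∈ Φ, w ≠ Cycle.nil) (hne : ∀ Φ ∈ D.regions, Φ ≠ 0)
    {Φ : Region (Fin n)} (hΦ : Φ ∈ D.regions) : ∃ L : List (Fin n), L ≠ [] ∧ Φ = {(↑L : Cycle (Fin n))} := by
  obtain ⟨G, hG⟩ := Multiset.exists_cons_of_mem hΦ
  obtain ⟨w, hw⟩ := Multiset.exists_mem_of_ne_zero (hne Φ hΦ)
  obtain ⟨R, hRR⟩ := Multiset.exists_cons_of_mem hw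
  have hrep : ∀ w' ∈ Φ, ∃ (u : Fin n) (l : List (Fin n)), w' = ↑(u :: l) := by
    intro w' hw'
    obtain ⟨L, hL⟩ : ∃ L : List (Fin n), (↑L : Cycle (Fin n)) = w' := Quotient.exists_rep w'
    rcases L with _ | ⟨u, l⟩
    · exact absurd hL.symm (hnil Φ hΦ w' hw')
    · exact ⟨u, l, hL.symm⟩
  obtain ⟨u, l, hul⟩ := hrep w hw
  rcases Multiset.empty_or_exists_mem R with h0 | ⟨w', hw'⟩
  · refine ⟨u :: l, by simp, ?_⟩
    rw [hRR, h0, hul]
    rfl
  · exfalso
    have hw'Φ : w' ∈ Φ := by rw [hRR]; exact Multiset.mem_cons_of_mem hw'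
    obtain ⟨v, m, hvm⟩ := hrep w' hw'Φ
    obtain ⟨R', hR'⟩ := Multiset.exists_cons_of_mem hw'
    obtain ⟨g, hg1, hg2, hg3⟩ := hB n D hR Φ G w R hG hRR
    have hgu : g u = true := hg2 u (by rw [hul]; simp)
    have hgv : g v = false := hg3 w' hw' v (by rw [hvm]; simp)
    have huv : u ≠ v := by
      rintro rfl
      rw [hgu] at hgv
      exact Bool.noConfusion hgv
    have hsame : ∀ w₁ ∈ Φ, ∀ x ∈ w₁, ∀ y ∈ w₁, g x = g y := by
      intro w₁ hw₁ x hx y hy
      rw [hRR] at hw₁
      rcases Multiset.mem_cons.1 hw₁ with rfl | h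
      · rw [hg2 x hx, hg2 y hy]
      · rw [hg3 _ h x hx, hg3 _ h y hy]
    have hadj : ¬ Adj D.regions u v := by
      rintro ⟨Φ', hΦ', w₁, hw₁, hd⟩
      have hu : u ∈ w₁ := hd.elim IsDart.mem_left IsDart.mem_right
      have hv : v ∈ w₁ := hd.elim IsDart.mem_right IsDart.mem_left
      have h1 : g u = g v := by
        rw [hG] at hΦ'
        rcases Multiset.mem_cons.1 hΦ' with rfl | h
        · exact hsame w₁ hw₁ u hu v hv
        · exact hg1 Φ' h w₁ hw₁ w₁ hw₁ u hu v hv
      rw [hgu, hgv] at h1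
      exact Bool.noConfusion h1
    have hm := RegionMove.join (u := u) (v := v) l m R'
    rw [← hul, ← hvm, ← hR', ← hRR] at hm
    exact hF ⟨insert s(u, v) D.edges, {(↑(joinWalk u l v m) : Cycle (Fin n)) ::ₘ R'} + G⟩
      ⟨u, v, huv, fun h => hadj ((hEI u v huv).1 h), rfl, Φ, _, G, hG, rfl, hm⟩

lemma isDart_two {V : Type} {x y p q : V} (h : IsDart (↑[x, y] : Cycle V) p q) :
    (p = x ∧ q = y) ∨ (p = y ∧ q = x) := by
  rw [isDart_coe, cprs_cons_cons] at h
  simpa using h

/-- **SG.** -/
theorem pf_SG (hB : T_SB) (hC : T_SC) (hD : T_SD) (hSF : T_SF) : T_SG := by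
  intro n D hn hR hF
  obtain ⟨hEI, hnil, hne0, hnd, hloop, -, hcard, heul, hglue, hiso⟩ := hC n D hR
  have hne := hne0 (by omega)
  have hnl : ∀ Φ ∈ D.regions, ∀ w ∈ Φ, ∀ x, ¬ IsDart w x x := fun Φ hΦ w hw x hx =>
    hloop x (mem_alld.2 ⟨Φ, hΦ, w, hw, hx⟩)
  have htri : ∀ Φ ∈ D.regions, ∃ a b c : Fin n, a ≠ b ∧ b ≠ c ∧ c ≠ a ∧
      Φ = {(↑[a, b, c] : Cycle (Fin n))} := by
    intro Φ hΦ
    obtain ⟨L, hL0, hΦL⟩ := one_walk hB hR hF hEI hnil hne hΦ
    obtain ⟨G, hG⟩ := Multiset.exists_cons_of_mem hΦ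
    have hmem : (↑L : Cycle (Fin n)) ∈ Φ := by rw [hΦL]; simp
    have hlen := hSF n D hR hF Φ hΦ ↑L hmem
    have hno := hnl Φ hΦ ↑L hmem
    rcases L with _ | ⟨x, _ | ⟨y, _ | ⟨z, _ | ⟨t, l⟩⟩⟩⟩
    · exact absurd rfl hL0
    · -- length one
      exfalso
      obtain ⟨hv1, -⟩ := hiso Φ G x 0 hG (by rw [hΦL]; rfl)
      have hg := hglue (fun z => decide (z = x)) (by
        intro Φ' hΦ' w₁ hw₁ w₂ hw₂ p hp q hq
        rw [hG] at hΦ'
        rcases Multiset.mem_cons.1 hΦ' with rfl | h
        · rw [hΦL, Multiset.mem_singleton] at hw₁ hw₂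
          subst hw₁; subst hw₂
          have h1 : p = x := by simpa using hp
          have h2 : q = x := by simpa using hq
          rw [h1, h2]
        · have h1 : p ≠ x := by rintro rfl; exact hv1 ⟨Φ', h, w₁, hw₁, hp⟩
          have h2 : q ≠ x := by rintro rfl; exact hv1 ⟨Φ', h, w₂, hw₂, hq⟩
          simp [h1, h2])
      obtain ⟨z, hz⟩ : ∃ z : Fin n, z ≠ x := by
        have : Nontrivial (Fin n) := Fin.nontrivial_iff_two_le.2 (by omega)
        exact exists_ne x
      have := hg z x
      simp [hz] at this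
    · -- length two
      exfalso
      have hxy : IsDart (↑[x, y] : Cycle (Fin n)) x y := ⟨[], rfl⟩
      have hyx : IsDart (↑[x, y] : Cycle (Fin n)) y x := ⟨[], coe_rot [x] [y]⟩
      have hne' : x ≠ y := by rintro rfl; exact hno x hxy
      -- darts of this walk lie only in this walk
      have huniq : ∀ Φ' ∈ D.regions, ∀ w' ∈ Φ', ∀ p q, IsDart w' p q →
          IsDart (↑[x, y] : Cycle (Fin n)) p q → Φ' = Φ ∧ w' = ↑[x, y] := by
        intro Φ' hΦ' w' hw' p q h1 h2
        rw [hG] at hΦ'
        rcases Multiset.mem_cons.1 hΦ' with rfl | h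
        · rw [hΦL, Multiset.mem_singleton] at hw'
          exact ⟨rfl, hw'⟩
        · exfalso
          rw [hG, alld_cons, Multiset.nodup_add] at hnd
          exact Multiset.disjoint_left.1 hnd.2.2 (mem_rdts.2 ⟨_, hmem, h2⟩)
            (mem_alld.2 ⟨Φ', h, w', hw', h1⟩)
      have huG : ∀ Φ' ∈ G, ∀ w' ∈ Φ', ∀ p q, IsDart w' p q →
          ¬ IsDart (↑[x, y] : Cycle (Fin n)) p q := by
        intro Φ' h w' hw' p q h1 h2
        rw [hG, alld_cons, Multiset.nodup_add] at hnd
        exact Multiset.disjoint_left.1 hnd.2.2 (mem_rdts.2 ⟨_, hmem, h2⟩)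
            (mem_alld.2 ⟨Φ', h, w', hw', h1⟩)
      -- the only neighbour
      have key : ∀ a b : Fin n, a ≠ b → (↑[a, b] : Cycle (Fin n)) = ↑[x, y] →
          ∀ q, Adj D.regions a q → q = b := by
        intro a b hab hcyc q hq
        have hdab : IsDart (↑[x, y] : Cycle (Fin n)) a b := by rw [← hcyc]; exact ⟨[], rfl⟩
        have hdba : IsDart (↑[x, y] : Cycle (Fin n)) b a := by
          rw [← hcyc]; exact ⟨[], coe_rot [a] [b]⟩
        set s : Fin n → Fin n → ZMod 2 := fun p q =>
          if (p = a ∧ q = b) ∨ (p = b ∧ q = a) then 1 else 0 with hs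
        have hsa : ∀ q, s a q = if q = b then 1 else 0 := by
          intro q
          simp only [hs]
          by_cases h : q = b
          · simp [h]
          · rw [if_neg h, if_neg]
            rintro (h1 | h1)
            · exact h h1.2
            · exact hab h1.1
        have hsa' : ∀ q, s q a = if q = b then 1 else 0 := by
          intro q
          simp only [hs]
          by_cases h : q = b
          · simp [h]
          · rw [if_neg h, if_neg]
            rintro (h1 | h1)
            · exact hab h1.2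
            · exact h h1.1
        have h1 := hD n D hR a s (fun p _ => by rw [hsa, hsa']) (by
          intro Φ' hΦ' w' hw' p q hpq
          have hd1 : IsDart w' p a := by
            rcases hpq with ⟨l, rfl⟩ | ⟨rfl, rfl⟩
            · exact ⟨q :: l, rfl⟩
            · exact ⟨[], rfl⟩
          have hd2 : IsDart w' a q := by
            rcases hpq with ⟨l, rfl⟩ | ⟨rfl, rfl⟩
            · exact ⟨l ++ [p], coe_rot [p] (a :: q :: l)⟩
            · exact ⟨[], coe_rot [q] [a]⟩
          rw [hsa, hsa']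
          have hiff : p = b ↔ q = b := by
            constructor
            · rintro rfl
              obtain ⟨-, h2⟩ := huniq Φ' hΦ' w' hw' _ _ hd1 hdba
              rw [h2, ← hcyc] at hd2
              rcases isDart_two hd2 with h3 | h3
              · exact h3.2
              · exact absurd h3.1 hab
            · rintro rfl
              obtain ⟨-, h2⟩ := huniq Φ' hΦ' w' hw' _ _ hd2 hdab
              rw [h2, ← hcyc] at hd1
              rcases isDart_two hd1 with h3 | h3
              · exact absurd h3.2 hab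
              · exact h3.1
          simp only [hiff]) b q ⟨Φ, hΦ, _, hmem, Or.inl hdab⟩ hq
        rw [hsa, hsa, if_pos rfl] at h1
        by_contra hcon
        rw [if_neg hcon] at h1
        exact one_ne_zero h1
      have hnotG : ∀ a b : Fin n, a ≠ b → (↑[a, b] : Cycle (Fin n)) = ↑[x, y] → ¬ InR G a := by
        rintro a b hab hcyc ⟨Φ', hΦ', w', hw', ha⟩
        have hΦ'D : Φ' ∈ D.regions := by rw [hG]; exact Multiset.mem_cons_of_mem hΦ'
        obtain ⟨L', hL'⟩ : ∃ L' : List (Fin n), (↑L' : Cycle (Fin n)) = w' := Quotient.exists_rep w'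
        rw [← hL'] at ha
        obtain ⟨P, Q, hPQ⟩ := List.append_of_mem (show a ∈ L' from by simpa using ha)
        have hw2 : w' = ↑(a :: (Q ++ P)) := by
          rw [← hL', hPQ, coe_rot]
          rfl
        rcases hQ : Q ++ P with _ | ⟨z, l'⟩
        · rw [hQ] at hw2
          obtain ⟨L2, -, hΦ'L⟩ := one_walk hB hR hF hEI hnil hne hΦ'D
          have hw'' : Φ' = (↑[a] : Cycle (Fin n)) ::ₘ 0 := by
            rw [hΦ'L] at hw' ⊢
            rw [Multiset.mem_singleton] at hw'
            rw [← hw', hw2]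
            rfl
          obtain ⟨G', hG'⟩ := Multiset.exists_cons_of_mem hΦ'
          have h1 := (hiso Φ' (Φ ::ₘ G') a 0 (by rw [hG, hG', Multiset.cons_swap]) hw'').1
          exact h1 ⟨Φ, Multiset.mem_cons_self _ _, _, hmem, by rw [← hcyc]; simp⟩
        · rw [hQ] at hw2
          have hd : IsDart w' a z := ⟨l', hw2⟩
          have hz : z = b := key a b hab hcyc z ⟨Φ', hΦ'D, w', hw', Or.inl hd⟩
          rw [hz] at hd
          exact huG Φ' hΦ' w' hw' a b hd (by rw [← hcyc]; exact ⟨[], rfl⟩)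
      have hx := hnotG x y hne' rfl
      have hy := hnotG y x hne'.symm (coe_rot [y] [x])
      have hg := hglue (fun z => decide (z = x ∨ z = y)) (by
        intro Φ' hΦ' w₁ hw₁ w₂ hw₂ p hp q hq
        rw [hG] at hΦ'
        rcases Multiset.mem_cons.1 hΦ' with rfl | h
        · rw [hΦL, Multiset.mem_singleton] at hw₁ hw₂
          subst hw₁; subst hw₂
          have h1 : p = x ∨ p = y := by simpa using hp
          have h2 : q = x ∨ q = y := by simpa using hq
          simp [h1, h2]
        · have h1 : ¬ (p = x ∨ p = y) := by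
            rintro (rfl | rfl)
            · exact hx ⟨Φ', h, w₁, hw₁, hp⟩
            · exact hy ⟨Φ', h, w₁, hw₁, hp⟩
          have h2 : ¬ (q = x ∨ q = y) := by
            rintro (rfl | rfl)
            · exact hx ⟨Φ', h, w₂, hw₂, hq⟩
            · exact hy ⟨Φ', h, w₂, hw₂, hq⟩
          simp [h1, h2])
      obtain ⟨z, hz⟩ : ∃ z : Fin n, z ∉ ({x, y} : Finset (Fin n)) := by
        by_contra hcon
        push Not at hcon
        have h1 : (Finset.univ : Finset (Fin n)) ⊆ {x, y} := fun z _ => hcon z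
        have h2 := Finset.card_le_card h1
        rw [Finset.card_univ, Fintype.card_fin] at h2
        have h3 := Finset.card_le_two (a := x) (b := y)
        omega
      have h1 := hg z x
      simp only [Finset.mem_insert, Finset.mem_singleton] at hz
      simp [hz] at h1
    · -- length three
      refine ⟨x, y, z, ?_, ?_, ?_, hΦL⟩
      · rintro rfl; exact hno x ⟨[z], rfl⟩
      · rintro rfl; exact hno y ⟨[x], coe_rot [x] [y, y]⟩
      · rintro rfl; exact hno z ⟨[y], coe_rot [z, y] [z]⟩
    · exfalso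
      simp at hlen
      omega
  refine ⟨?_, htri⟩
  have h1 : Multiset.card (alld D.regions) = 3 * Multiset.card D.regions := by
    unfold alld
    rw [Multiset.card_bind]
    have h2 : D.regions.map (Multiset.card ∘ rdts) = D.regions.map (fun _ => 3) := by
      refine Multiset.map_congr rfl fun Φ hΦ => ?_
      obtain ⟨a, b, c, -, -, -, h⟩ := htri Φ hΦ
      rw [Function.comp_apply, h, rdts_sing, dts_coe]
      rfl
    rw [h2, Multiset.map_const', Multiset.sum_replicate, smul_eq_mul, mul_comm]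
  have h3 : (D.regions.map Multiset.card).sum = Multiset.card D.regions := by
    have h2 : D.regions.map Multiset.card = D.regions.map (fun _ => 1) := by
      refine Multiset.map_congr rfl fun Φ hΦ => ?_
      obtain ⟨a, b, c, -, -, -, h⟩ := htri Φ hΦ
      rw [h]
      rfl
    rw [h2, Multiset.map_const', Multiset.sum_replicate, smul_eq_mul, mul_one]
  rw [h1] at hcard
  rw [h3] at heul
  omega

end Pool.Agent.H33.DG.SG
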